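import Pool.Agent.helper36.V3.SpecS

/-!
# Project v3: module PH3, the conclusion of the chain step (adapted from helper16/PP/PH2.lean)
-/

set_option autoImplicit false

open Complex Metric Set Filter Topology MeasureTheory MPS

noncomputable section

namespace PPS

section
variable {n k : ℕ} [NeZero k] {f : Polynomial ℂ} {b g : ZMod k → ℂ}
  {R ε h r₀ : ℝ} {χ : ℂ → ℂ} {G0 : ℕ → ℂ → ℂ} {PP : Finset ℕ} {M : ℕ} {T : ℕ → ℝ} {G : ℕ → ℂ → ℂ}
  {Q : ℕ}

theorem PH3_restrict (H : H3 n k f b g R ε h r₀ χ G0 PP M T G Q) {q : ℕ} (hq : q ≤ Q) :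
    H3 n k f b g R ε h r₀ χ G0 PP M T G q := by
  refine ⟨H.su3, ⟨H.sys.t0, fun p hp => H.sys.anti p (by omega), fun p hp => H.sys.pos p (by omega),
    H.sys.g0, fun p hp => H.sys.diff p (by omega), fun p hp => H.sys.rel p (by omega),
    fun p hp => H.sys.val p (by omega), fun p h1 hp => H.sys.disj p h1 (by omega)⟩,
    hq.trans H.hQ⟩

theorem PH3_anti (H : H3 n k f b g R ε h r₀ χ G0 PP M T G Q) {p q : ℕ} (hpq : p ≤ q)
    (hq : q ≤ Q) : T q ≤ T p := by
  induction q, hpq using Nat.le_induction with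
  | base => exact le_rfl
  | succ q hpq ih => exact (H.sys.anti q (by omega)).trans (ih (by omega))

theorem PH3_iter (H : H3 n k f b g R ε h r₀ χ G0 PP M T G Q) {p : ℕ} (hp : p ≤ Q) {w : ℂ}
    (hw : w ∈ ball (0 : ℂ) (T p)) {q : ℕ} (hq : q ≤ p) :
    (fun z : ℂ => f.eval z)^[q] (G p w) = G (p - q) w := by
  induction q with
  | zero => simp
  | succ q ih =>
    rw [Function.iterate_succ_apply', ih (by omega)]
    have h1 : p - q = (p - (q + 1)) + 1 := by omega
    rw [h1]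
    refine (H.sys.rel (p - (q + 1)) (by omega) w ?_).1
    rw [← h1]
    exact ball_subset_ball (PH3_anti H (Nat.sub_le _ _) hp) hw

/-- the radii without a branch at the level `q`. -/
def PH3_J (f : Polynomial ℂ) (h : ℝ) (χ : ℂ → ℂ) (G0 : ℕ → ℂ → ℂ) (PP : Finset ℕ) (T : ℕ → ℝ)
    (G : ℕ → ℂ → ℂ) (q : ℕ) : Set ℝ :=
  {r | 3 * h / 4 < r ∧ T (q + 1) < r ∧ r < T q ∧
    (1 ≤ q → q ∉ PP → Disjoint (G q '' ball 0 r) (χ '' ball 0 h)) ∧
    ¬ Br f (G q) (ball 0 r) 0 (G0 (q + 1) 0)}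

theorem PH3_vol (hEV3 : EV3_stmt) (H : H3 n k f b g R ε h r₀ χ G0 PP M T G k)
    (hε : ε ≤ e3 n M h r₀)
    (hfail : ∀ q < k, ∀ r, T (q + 1) < r → r < T q → Fail3 f h χ G0 PP G q r) {q : ℕ} (hq : q < k) :
    volume (PH3_J f h χ G0 PP T G q) ≤ ENNReal.ofReal (d3 n M h r₀) := by
  have hsub : PH3_J f h χ G0 PP T G q ⊆ Ioo (T (q + 1)) (T (q + 1) + d3 n M h r₀) := by
    rintro r ⟨h1, h2, h3, h4, h5⟩
    refine ⟨h2, ?_⟩
    refine hEV3 n k f b g R ε h r₀ χ G0 PP M T G q (PH3_restrict H (by omega)) hε r h3.le h4 ?_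
    intro r' hr1 hr2
    rcases hfail q hq r' hr1 (hr2.trans_lt h3) with h6 | h6
    · exact absurd ((h4 h6.1 h6.2.1).mono_left (image_mono (ball_subset_ball hr2))) h6.2.2
    · exact h6
  refine (measure_mono hsub).trans ?_
  rw [Real.volume_Ioo]
  exact ENNReal.ofReal_le_ofReal (by linarith)

theorem PH3_crit (hLIFT : LIFT_stmt) (H : H3 n k f b g R ε h r₀ χ G0 PP M T G k) {q : ℕ} (hq : q < k)
    {r : ℝ} (hr : r ∈ PH3_J f h χ G0 PP T G q) :
    ∃ w ∈ ball (0 : ℂ) r, G q w ∈ CV f := by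
  obtain ⟨h1, h2, h3, h4, h5⟩ := hr
  by_contra hcon
  push Not at hcon
  have hh : 0 < h := H.su3.h0
  apply h5
  have hx : (0 : ℂ) ∈ ball (0 : ℂ) (T (q + 1)) := mem_ball_self (H.sys.pos (q + 1) (by omega))
  refine hLIFT f (ball 0 r) (G q) 0 (G0 (q + 1) 0) ?_ isOpen_ball
    (convex_ball _ _) ?_ hcon (mem_ball_self (by linarith)) ?_
  · rw [H.su3.hdeg]; linarith [H.su3.hn]
  · exact (H.sys.diff q (by omega)).mono (ball_subset_ball h3.le)
  · have h6 := (H.sys.rel q hq _ hx).1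
    rw [H.sys.val (q + 1) (by omega)] at h6
    exact h6

theorem PH3_pair (H : H3 n k f b g R ε h r₀ χ G0 PP M T G k) {q₁ q₂ : ℕ} (h12 : q₁ < q₂)
    (h2 : q₂ < k) {r₁ r₂ : ℝ} (n1 : r₁ ∈ PH3_J f h χ G0 PP T G q₁)
    (n2 : r₂ ∈ PH3_J f h χ G0 PP T G q₂) {w w' : ℂ} (hw : w ∈ ball (0 : ℂ) r₁)
    (hw' : w' ∈ ball (0 : ℂ) r₂) (he : G q₁ w = G q₂ w') : q₂ - q₁ ∈ PP := by
  obtain ⟨hr1, -, hr1T, -, -⟩ := n1
  obtain ⟨hr2, -, hr2T, hgood, -⟩ := n2
  have hwT : w ∈ ball (0 : ℂ) (T q₁) := ball_subset_ball hr1T.le hw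
  have hwT' : w' ∈ ball (0 : ℂ) (T q₂) := ball_subset_ball hr2T.le hw'
  have e1 := PH3_iter H (by omega : q₁ ≤ k) hwT le_rfl
  have e2 := PH3_iter H h2.le hwT' h12.le
  rw [Nat.sub_self, H.sys.g0, he] at e1
  rw [e1] at e2
  have hT0 : T q₁ ≤ h := (PH3_anti H (Nat.zero_le q₁) (by omega)).trans H.sys.t0
  have hwρ : w ∈ ball (0 : ℂ) h := ball_subset_ball hT0 hwT
  by_contra hne
  rcases Nat.eq_zero_or_pos q₁ with h0 | h0
  · subst h0
    rw [Nat.sub_zero] at hne e2
    have hd := hgood (by omega) hne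
    rw [Set.disjoint_left] at hd
    exact hd ⟨w', hw', rfl⟩ ⟨w, hwρ, e2⟩
  · have hd := H.sys.disj (q₂ - q₁) (by omega) (by omega) hne
    rw [Set.disjoint_left] at hd
    refine hd ⟨w', ?_, rfl⟩ ⟨w, hwρ, e2⟩
    exact ball_subset_ball (PH3_anti H (by omega) h2.le) hwT'

theorem PH3_card (hLIFT : LIFT_stmt) (hPRB : PRB_stmt) (H : H3 n k f b g R ε h r₀ χ G0 PP M T G k)
    (F : Finset ℕ) (hF : ∀ q ∈ F, q < k ∧ (PH3_J f h χ G0 PP T G q).Nonempty) :
    F.card ≤ (M + 1) * (n - 1) := by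
  classical
  have hdeg1 : 1 ≤ f.natDegree := by rw [H.su3.hdeg]; linarith [H.su3.hn]
  obtain ⟨-, -, -, -, hfin, hcard⟩ := hPRB f hdeg1
  have hex : ∀ q : ℕ, ∃ (r : ℝ) (w : ℂ), q ∈ F → r ∈ PH3_J f h χ G0 PP T G q ∧ w ∈ ball (0 : ℂ) r ∧
      G q w ∈ CV f := by
    intro q
    by_cases hq : q ∈ F
    · obtain ⟨hqk, r, hr⟩ := hF q hq
      obtain ⟨w, hw, hc⟩ := PH3_crit hLIFT H hqk hr
      exact ⟨r, w, fun _ => ⟨hr, hw, hc⟩⟩
    · exact ⟨0, 0, fun h => absurd h hq⟩
  choose r w hrw using hex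
  have hpair : ∀ p ∈ F, ∀ q ∈ F, G p (w p) = G q (w q) → p < q → q - p ∈ PP := fun p hp q hq he hpq =>
    PH3_pair H hpq (hF q hq).1 (hrw p hp).1 (hrw q hq).1 (hrw p hp).2.1 (hrw q hq).2.1 he
  have h1 : F.card ≤ (M + 1) * (F.image (fun q => G q (w q))).card := by
    apply Finset.card_le_mul_card_image
    intro v hv
    set Fv := F.filter (fun q => G q (w q) = v) with hFv
    rcases Fv.eq_empty_or_nonempty with h0 | hne
    · rw [h0, Finset.card_empty]
      omega
    · set q₀ := Fv.min' hne with hq₀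
      have hq₀m : q₀ ∈ Fv := Finset.min'_mem _ _
      have h2 : (Fv.erase q₀).card ≤ PP.card := by
        apply Finset.card_le_card_of_injOn (fun q => q - q₀)
        · intro q hq
          rw [Finset.mem_coe, Finset.mem_erase] at hq
          rw [Finset.mem_coe]
          have hlt : q₀ < q := by
            have := Finset.min'_le Fv q hq.2
            rw [← hq₀] at this
            omega
          have hm1 := (Finset.mem_filter.1 hq₀m)
          have hm2 := (Finset.mem_filter.1 hq.2)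
          exact hpair q₀ hm1.1 q hm2.1 (hm1.2.trans hm2.2.symm) hlt
        · intro q hq q' hq' he
          rw [Finset.mem_coe, Finset.mem_erase] at hq hq'
          have i1 := Finset.min'_le Fv q hq.2
          have i2 := Finset.min'_le Fv q' hq'.2
          rw [← hq₀] at i1 i2
          simp only at he
          omega
      have h3 := Finset.card_erase_add_one hq₀m
      have h4 := H.su3.hM
      omega
  have h2 : (F.image (fun q => G q (w q))).card ≤ n - 1 := by
    have h3 : ((F.image (fun q => G q (w q)) : Finset ℂ) : Set ℂ) ⊆ CV f := by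
      intro v hv
      rw [Finset.mem_coe, Finset.mem_image] at hv
      obtain ⟨q, hq, rfl⟩ := hv
      exact (hrw q hq).2.2
    have h4 := Set.ncard_le_ncard h3 hfin
    rw [Set.ncard_coe_finset] at h4
    rw [H.su3.hdeg] at hcard
    exact h4.trans hcard
  calc F.card ≤ (M + 1) * (F.image (fun q => G q (w q))).card := h1
    _ ≤ (M + 1) * (n - 1) := Nat.mul_le_mul_left _ h2

theorem PH3_final (hS3G : S3G_stmt) (hMU3 : MU3_stmt) (hREACH3 : REACH3_stmt) (hEV3 : EV3_stmt)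
    (hCHEB : CHEB_stmt) (hLIFT : LIFT_stmt) (hPRB : PRB_stmt)
    (H : H3 n k f b g R ε h r₀ χ G0 PP M T G k)
    (hε : ε ≤ e3 n M h r₀) (hT0 : T 0 = h)
    (hfail : ∀ q < k, ∀ r, T (q + 1) < r → r < T q → Fail3 f h χ G0 PP G q r) :
    3 * h / 4 < T k := by
  classical
  by_contra hcon
  rw [not_lt] at hcon
  have hh : 0 < h := H.su3.h0
  have hn : 2 ≤ n := H.su3.hn
  obtain ⟨-, -, -, hε0, hd0, -, hd2, -, he2⟩ := hS3G n k f b g R ε h r₀ χ G0 PP M H.su3
  obtain ⟨μ, hμ, hMu⟩ := hMU3 n k f b g R ε h r₀ χ G0 PP M T G k H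
  have hM0 : (0 : ℝ) ≤ M := Nat.cast_nonneg M
  have hε7 : ((M : ℝ) + 5) * ε ≤ h ^ 2 / 256 := by
    have h1 : ε ≤ h ^ 2 / (256 * (M + 5)) := hε.trans he2
    rw [le_div_iff₀ (by positivity)] at h1 ⊢
    linarith
  -- the set of type (i)
  set S1 : Set ℝ := {r | ENNReal.ofReal h ≤ PsiM μ (h / 8) (h - r)} with hS1
  have hS1v : volume S1 ≤ ENNReal.ofReal (h / 16) := by
    have h1 := hCHEB μ (h / 8) ((M + 5) * ε) h (by positivity) (by positivity) hh hμ
    have h2 : volume S1 = volume {s : ℝ | ENNReal.ofReal h ≤ PsiM μ (h / 8) s} :=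
      MeasurePreserving.measure_preimage_equiv (f := MeasurableEquiv.subLeft h)
        (Measure.measurePreserving_sub_left (volume : Measure ℝ) h)
        {s : ℝ | ENNReal.ofReal h ≤ PsiM μ (h / 8) s}
    rw [h2]
    refine h1.trans (ENNReal.ofReal_le_ofReal ?_)
    have hπ : (3 : ℝ) < Real.pi := Real.pi_gt_three
    rw [div_le_iff₀ (by positivity)]
    have h4 : h ^ 2 * h * 3 ≤ h ^ 2 * h * Real.pi := by gcongr
    have h5 : h * (((M : ℝ) + 5) * ε) ≤ h * (h ^ 2 / 256) := by gcongr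
    have h6 : 0 < h ^ 2 * h := by positivity
    nlinarith
  set F : Finset ℕ := (Finset.range k).filter
    fun q => (PH3_J f h χ G0 PP T G q).Nonempty with hF
  have hFm : ∀ q ∈ F, q < k ∧ (PH3_J f h χ G0 PP T G q).Nonempty := by
    intro q hq
    rw [hF, Finset.mem_filter, Finset.mem_range] at hq
    exact hq
  have hFc : F.card ≤ (M + 1) * (n - 1) := PH3_card hLIFT hPRB H F hFm
  set D : Set ℝ := T '' ((Finset.range (k + 1) : Finset ℕ) : Set ℕ) with hD
  have hDv : volume D = 0 := ((Finset.finite_toSet _).image T).measure_zero _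
  have hcov : Ioo (3 * h / 4) h ⊆ S1 ∪ ((⋃ q ∈ F, PH3_J f h χ G0 PP T G q) ∪ D) := by
    intro r hr
    by_cases hrD : r ∈ D
    · exact Or.inr (Or.inr hrD)
    have hrne : ∀ q, q ≤ k → r ≠ T q := by
      intro q hq hrq
      exact hrD ⟨q, by simpa using Nat.lt_succ_of_le hq, hrq.symm⟩
    -- the maximal q with r < T q
    obtain ⟨q, hqk, hrq, hlow⟩ : ∃ q, q < k ∧ r < T q ∧ T (q + 1) < r := by
      have hex : ∃ q ∈ (Finset.range (k + 1)).filter (fun q => r < T q),
          ∀ p ∈ (Finset.range (k + 1)).filter (fun q => r < T q), p ≤ q :=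
        Finset.exists_max_image _ (fun q => q) ⟨0, by simp [hT0, hr.2]⟩
      obtain ⟨q, hq, hmax⟩ := hex
      rw [Finset.mem_filter, Finset.mem_range] at hq
      have hqk : q < k := by
        rcases Nat.lt_or_ge q k with h1 | h1
        · exact h1
        · have h2 : q = k := by omega
          rw [h2] at hq
          linarith [hq.2, hr.1]
      refine ⟨q, hqk, hq.2, ?_⟩
      by_contra hcon'
      have h1 : r < T (q + 1) := lt_of_le_of_ne (not_lt.1 hcon') (hrne (q + 1) (by omega))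
      have h2 := hmax (q + 1) (by
        rw [Finset.mem_filter, Finset.mem_range]
        exact ⟨by omega, h1⟩)
      omega
    have hF2 := hfail q hqk r hlow hrq
    by_cases hA : 1 ≤ q ∧ q ∉ PP ∧ ¬ Disjoint (G q '' ball 0 r) (χ '' ball 0 h)
    · left
      exact hREACH3 n k f b g R ε h r₀ χ G0 PP M T G k μ H hε hMu q r hA.1 hqk hqk.le hA.2.1
        hr.1.le hrq.le hA.2.2
    · right
      left
      have hc : ¬ Br f (G q) (ball 0 r) 0 (G0 (q + 1) 0) := by
        rcases hF2 with h1 | h1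
        · exact absurd h1 hA
        · exact h1
      have hmem : r ∈ PH3_J f h χ G0 PP T G q := by
        refine ⟨hr.1, hlow, hrq, fun h1 h2 => ?_, hc⟩
        by_contra h3
        exact hA ⟨h1, h2, h3⟩
      have hqF : q ∈ F := by
        rw [hF, Finset.mem_filter, Finset.mem_range]
        exact ⟨hqk, r, hmem⟩
      exact mem_biUnion hqF hmem
  have hnR : (0 : ℝ) < n := by exact_mod_cast (by omega : 0 < n)
  have hvol : volume (Ioo (3 * h / 4) h) ≤ ENNReal.ofReal (h / 16 + h / 16) := by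
    calc volume (Ioo (3 * h / 4) h) ≤ volume (S1 ∪ ((⋃ q ∈ F, PH3_J f h χ G0 PP T G q) ∪ D)) :=
          measure_mono hcov
      _ ≤ volume S1 + volume ((⋃ q ∈ F, PH3_J f h χ G0 PP T G q) ∪ D) :=
          measure_union_le _ _
      _ ≤ volume S1 + (volume (⋃ q ∈ F, PH3_J f h χ G0 PP T G q) + volume D) := by
          gcongr
          exact measure_union_le _ _
      _ ≤ ENNReal.ofReal (h / 16) + (∑ q ∈ F, ENNReal.ofReal (d3 n M h r₀) + 0) := by
          refine add_le_add hS1v (add_le_add ?_ hDv.le)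
          refine (measure_biUnion_finset_le F _).trans (Finset.sum_le_sum fun q hq => ?_)
          exact PH3_vol hEV3 H hε hfail (hFm q hq).1
      _ ≤ ENNReal.ofReal (h / 16) + ENNReal.ofReal (h / 16) := by
          refine add_le_add le_rfl ?_
          rw [add_zero, Finset.sum_const, nsmul_eq_mul, ← ENNReal.ofReal_natCast,
            ← ENNReal.ofReal_mul (by positivity)]
          refine ENNReal.ofReal_le_ofReal ?_
          have h1 : (F.card : ℝ) ≤ (M + 1) * n := by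
            have : F.card ≤ (M + 1) * n := hFc.trans (Nat.mul_le_mul_left _ (by omega))
            exact_mod_cast this
          calc (F.card : ℝ) * d3 n M h r₀ ≤ ((M + 1) * n) * (h / (16 * (M + 1) * n)) := by gcongr
            _ = h / 16 := by field_simp
      _ = ENNReal.ofReal (h / 16 + h / 16) := by
          rw [ENNReal.ofReal_add (by positivity) (by positivity)]
  rw [Real.volume_Ioo, ENNReal.ofReal_le_ofReal_iff (by positivity)] at hvol
  linarith

end

theorem PH3 (hS3G : S3G_stmt) (hSEQ3 : SEQ3_stmt) (hMU3 : MU3_stmt) (hREACH3 : REACH3_stmt)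
    (hEV3 : EV3_stmt) (hCHEB : CHEB_stmt) (hLIFT : LIFT_stmt) (hPRB : PRB_stmt) : PH3_stmt := by
  intro n k _ f b g R ε h r₀ χ G0 PP M hSU hε
  obtain ⟨T, G, hH, hT, hF⟩ := hSEQ3 n k f b g R ε h r₀ χ G0 PP M hSU
  refine ⟨T k, G, PH3_final hS3G hMU3 hREACH3 hEV3 hCHEB hLIFT hPRB hH hε hT hF, hSU, ?_, le_rfl⟩
  have hle : ∀ q ≤ k, T k ≤ T q := fun q hq => PH3_anti hH hq le_rfl
  exact
    { t0 := (hle 0 (by omega)).trans hH.sys.t0
      anti := fun _ _ => le_rfl
      pos := fun q _ => hH.sys.pos k le_rfl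
      g0 := hH.sys.g0
      diff := fun q hq => (hH.sys.diff q hq).mono (ball_subset_ball (hle q hq))
      rel := fun q hq w hw => hH.sys.rel q hq w (ball_subset_ball (hle (q + 1) (by omega)) hw)
      val := hH.sys.val
      disj := fun q h1 h2 h3 => (hH.sys.disj q h1 h2 h3).mono_left
        (image_mono (ball_subset_ball (hle (q + 1) (by omega)))) }

end PPS
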