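import Pool.Agent.helper36.V3.SpecP

/-!
# Project v3: module ST2 (level `k` on the cylinder); the first part follows helper16/PP/INC.lean
-/

set_option autoImplicit false

open Complex Metric Set Filter Topology MeasureTheory MPS

noncomputable section

namespace V3S

theorem ST2_exp_mem (a : ℝ) (w : ℂ) (hw : w ∈ HP a) :
    Complex.exp w ∈ ball (0 : ℂ) (Real.exp (-a)) := by
  rw [mem_ball_zero_iff, Complex.norm_exp, Real.exp_lt_exp]
  exact hw

theorem ST2_deriv (P : ℂ → ℂ) (r : ℝ) (κ w : ℂ) (hP : DifferentiableOn ℂ P (ball 0 r))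
    (hw : Complex.exp w ∈ ball (0 : ℂ) r) :
    DifferentiableAt ℂ (fun w => w + κ + P (Complex.exp w)) w := by
  have h1 : DifferentiableAt ℂ P (Complex.exp w) := hP.differentiableAt (isOpen_ball.mem_nhds hw)
  exact (differentiableAt_id.add_const κ).add (h1.comp w Complex.differentiable_exp.differentiableAt)

/-- a holomorphic function with `‖P'‖ ≤ C` off `0` -/
theorem ST2_bound (P : ℂ → ℂ) (r s C : ℝ) (hsr : s ≤ r) (hs : 0 < s)
    (hP : DifferentiableOn ℂ P (ball 0 r)) (hP0 : P 0 = 0)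
    (hb : ∀ u ∈ ball (0 : ℂ) s, u ≠ 0 → ‖deriv P u‖ ≤ C) :
    ∀ u ∈ ball (0 : ℂ) s, ‖P u‖ ≤ C * ‖u‖ := by
  have hsub : ball (0 : ℂ) s ⊆ ball 0 r := ball_subset_ball hsr
  have hd0 : ‖deriv P 0‖ ≤ C := by
    have hcont : ContinuousAt (deriv P) 0 := by
      have h1 : AnalyticAt ℂ P 0 :=
        (hP.analyticOnNhd isOpen_ball) 0 (mem_ball_self (hs.trans_le hsr))
      exact h1.deriv.continuousAt
    have h2 : Tendsto (fun u => ‖deriv P u‖) (𝓝[≠] (0 : ℂ)) (𝓝 ‖deriv P 0‖) :=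
      (hcont.norm.tendsto).mono_left nhdsWithin_le_nhds
    refine le_of_tendsto h2 ?_
    have h3 : ∀ᶠ u : ℂ in 𝓝[≠] (0 : ℂ), u ∈ ball (0 : ℂ) s :=
      mem_nhdsWithin_of_mem_nhds (isOpen_ball.mem_nhds (mem_ball_self hs))
    filter_upwards [h3, self_mem_nhdsWithin] with u hu hu0
    exact hb u hu hu0
  have hb' : ∀ u ∈ ball (0 : ℂ) s, ‖deriv P u‖ ≤ C := by
    intro u hu
    by_cases h : u = 0
    · rw [h]; exact hd0
    · exact hb u hu h
  intro u hu
  have h1 := (convex_ball (0 : ℂ) s).norm_image_sub_le_of_norm_deriv_le (f := P) (C := C)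
    (fun x hx => hP.differentiableAt (isOpen_ball.mem_nhds (hsub hx))) hb'
    (mem_ball_self hs) hu
  rwa [hP0, sub_zero, sub_zero] at h1

theorem ST2 (hDG : PPS.DG_stmt) (hCOC : PPS.COC_stmt) (hPHI : PPS.PHI_stmt) (hPNX : PPS.PNX_stmt)
    (hPT1 : PPS.PT1_stmt) (hNH : NH_stmt) : ST2_stmt := by
  intro n k _ f b g ψ ra R ε δ G lam hH hε hrho
  have hk1 : 1 ≤ k := by have := hH.su.hk; omega
  have hδ := hH.d0
  obtain ⟨P, hPd, hP0, hPb, hPt⟩ := hPHI n k f b g ψ ra R ε δ (fun _ => 3 * δ) G k hH hk1 hε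
  have hDGq := hDG n k f b g ψ ra R ε δ (fun _ => 3 * δ) G k hH
  have hk0 : (-(k : ZMod k)) = 0 := by simp
  have hmx := hH.su.mx (-(k : ZMod k))
  -- the constant
  have hKq : PPS.Kq f b ψ 0 k = Complex.exp (-lam) := by
    rw [(hCOC k f b ψ hH.su.cyc.ne0 (fun i => (hH.su.mx i).pn.der) 0).2.2.1, hrho,
      Complex.exp_neg]
  obtain ⟨ψ', hpn, hdψ, hψ⟩ := hPNX n k f b g ψ ra R ε δ (fun _ => 3 * δ) G k P (-lam) hH hk1 hPd hP0
    hPb hPt

  set r' : ℝ := Real.exp ((-lam).re - (3 * δ + δ / 8) - δ / 32) with hr'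
  have hdeq : deriv ψ' 0 = deriv (ψ (-(k : ZMod k))) 0 := by
    rw [hDGq, hKq, mul_comm (Complex.exp (-lam))] at hdψ
    exact mul_right_cancel₀ (Complex.exp_ne_zero _) hdψ
  have hr1 : r' ≤ 1 := by
    by_contra hcon
    push Not at hcon
    exact hmx.mx r' hcon ψ' hpn hdeq
  have hexp0 : (-lam).re - (3 * δ + δ / 8) - δ / 32 ≤ 0 := by
    rw [hr', Real.exp_le_one_iff] at hr1
    exact hr1
  have hEq : EqOn ψ' (ψ (-(k : ZMod k))) (ball 0 r') := by
    have h1 := (hNH k b g (-(k : ZMod k)) ψ' r' hpn).2.2.1 (ψ (-(k : ZMod k))) 1 hmx.pn hdeq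
    rw [min_eq_left hr1] at h1
    exact h1
  have hsub : ∀ w ∈ HP (4 * δ), w ∈ HP (3 * δ + δ / 8) := by
    intro w hw
    have h1 : w.re < -(4 * δ) := hw
    show w.re < -(3 * δ + δ / 8)
    linarith
  have hΦre : ∀ w ∈ HP (4 * δ), (w + (-lam) + P (Complex.exp w)).re <
      (-lam).re - (3 * δ + δ / 8) - δ / 32 := by
    intro w hw
    have h1 : w.re < -(4 * δ) := hw
    have h2 := (hPb _ (ST2_exp_mem _ w (hsub w hw))).1
    have h3 := (Complex.abs_re_le_norm (P (Complex.exp w))).trans h2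
    have h4 := (abs_le.1 h3).2
    rw [Complex.add_re, Complex.add_re]
    linarith
  have hmain : ∀ w ∈ HP (4 * δ),
      ψ (-(k : ZMod k)) (Complex.exp (w + (-lam) + P (Complex.exp w))) = G k (Complex.exp w) := by
    intro w hw
    have he : Complex.exp (w + (-lam) + P (Complex.exp w)) =
        Complex.exp w * Complex.exp (-lam + P (Complex.exp w)) := by
      rw [← Complex.exp_add, add_assoc]
    have hmem : Complex.exp w * Complex.exp (-lam + P (Complex.exp w)) ∈ ball (0 : ℂ) r' := by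
      rw [← he, mem_ball_zero_iff, Complex.norm_exp, hr', Real.exp_lt_exp]
      exact hΦre w hw
    have h1 := hψ _ (ST2_exp_mem _ w (hsub w hw)) hmem
    rw [he, ← hEq hmem, h1]
  -- the bound of `P'`
  have hder : ∀ u ∈ ball (0 : ℂ) (Real.exp (-(3 * δ + 1))), u ≠ 0 →
      ‖deriv P u‖ ≤ 4 * ε * Real.exp (3 * δ + 1) := by
    intro u hu hu0
    have hupos : 0 < ‖u‖ := norm_pos_iff.2 hu0
    rw [mem_ball_zero_iff] at hu
    set w : ℂ := Complex.log u with hw
    have hexpw : Complex.exp w = u := Complex.exp_log hu0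
    have hwre : w.re = Real.log ‖u‖ := by rw [hw, Complex.log_re]
    have hlog : Real.log ‖u‖ < -(3 * δ + 1) := (Real.log_lt_iff_lt_exp hupos).2 hu
    set t : ℝ := -w.re - 3 * δ with ht
    have ht1 : 1 ≤ t := by rw [ht, hwre]; linarith
    have hw2 : w ∈ HP (3 * δ + δ / 8) := by
      show w.re < -(3 * δ + δ / 8)
      have := hH.d1
      rw [hwre]; linarith
    obtain ⟨-, p2, p3⟩ := hPT1 n k f b g ψ ra R ε δ (fun _ => 3 * δ) G k hH k hk1 le_rfl w t
      (by linarith) (by rw [ht]; ring)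
    have hτ := p3.trans (p2 ht1)
    have hsq := hPt w hw2
    rw [hexpw] at hsq
    have hball : u ∈ ball (0 : ℂ) (Real.exp (-(3 * δ + δ / 8))) := by
      have := ST2_exp_mem _ w hw2
      rwa [hexpw] at this
    have hq := (hPb u hball).2
    set x : ℂ := u * deriv P u with hx
    have h1 : x * (2 + x) = tau b g (GW G) k w - 1 := by
      rw [← hsq]; ring
    have h2 : ‖x‖ * (7 / 4) ≤ ‖tau b g (GW G) k w - 1‖ := by
      rw [← h1, norm_mul x (2 + x)]
      refine mul_le_mul_of_nonneg_left ?_ (norm_nonneg x)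
      have h3 : ‖(2 : ℂ)‖ ≤ ‖2 + x‖ + ‖x‖ := by
        have := norm_sub_le (2 + x) x
        rwa [add_sub_cancel_right] at this
      rw [Complex.norm_ofNat] at h3
      linarith
    have h3 : ‖x‖ ≤ 4 * ε * Real.exp (1 - t) := by
      have h4 := norm_nonneg x
      linarith
    have h4 : Real.exp (1 - t) = ‖u‖ * Real.exp (3 * δ + 1) := by
      have h5 : 1 - t = Real.log ‖u‖ + (3 * δ + 1) := by
        rw [ht, hwre]; ring
      rw [h5, Real.exp_add, Real.exp_log hupos]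
    rw [h4, hx, norm_mul] at h3
    have h5 : ‖u‖ * ‖deriv P u‖ ≤ ‖u‖ * (4 * ε * Real.exp (3 * δ + 1)) := by
      refine h3.trans (le_of_eq ?_); ring
    exact le_of_mul_le_mul_left h5 hupos
  have hε0 : 0 ≤ ε := by
    refine le_trans ?_ hH.su.hE
    have h1 : 0 ≤ Real.log ‖PPS.rho f b‖ := Real.log_nonneg hH.su.rho1.le
    have h2 : 0 ≤ ∫ z in ball (0 : ℂ) R, ‖PPS.er f b g z‖ := integral_nonneg fun _ => norm_nonneg _
    have h3 := Real.pi_pos
    positivity
  have hbd := ST2_bound P (Real.exp (-(3 * δ + δ / 8))) (Real.exp (-(3 * δ + 1)))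
    (4 * ε * Real.exp (3 * δ + 1)) (by
      rw [Real.exp_le_exp]
      have := hH.d1
      linarith) (Real.exp_pos _) hPd hP0 hder
  refine ⟨fun w => w + -lam + P (Complex.exp w), ?_, ?_, ?_⟩
  · intro w hw
    exact (ST2_deriv P _ (-lam) w hPd (ST2_exp_mem _ w (hsub w hw))).differentiableWithinAt
  · intro w hw
    refine ⟨lt_of_lt_of_le (hΦre w hw) hexp0, ?_⟩
    have h1 := hmain w hw
    rw [hk0] at h1
    exact h1
  · intro w hw
    have h1 := hbd _ (ST2_exp_mem _ w hw)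
    have h2 : w.re < -(3 * δ + 1) := hw
    have h3 : (w + -lam + P (Complex.exp w)) - (w - lam) = P (Complex.exp w) := by ring
    show ‖(w + -lam + P (Complex.exp w)) - (w - lam)‖ ≤ 4 * ε
    rw [h3]
    refine h1.trans ?_
    rw [Complex.norm_exp, mul_assoc, ← Real.exp_add]
    have h4 : Real.exp (3 * δ + 1 + w.re) ≤ 1 := by
      rw [Real.exp_le_one_iff]; linarith
    calc 4 * ε * Real.exp (3 * δ + 1 + w.re) ≤ 4 * ε * 1 :=
          mul_le_mul_of_nonneg_left h4 (by linarith)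
      _ = 4 * ε := mul_one _

end V3S
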